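import Mathlib

set_option autoImplicit false

namespace Pool.Agent.Results.MP_10193a_al.Commutative

universe u v

/-- Every nonzero element has a nonzero central multiple by a nonzero central element. -/
def CentrallyEssential (R : Type u) [Ring R] : Prop :=
  ∀ a : R, a ≠ 0 → ∃ x ∈ Subring.center R, ∃ y ∈ Subring.center R, x ≠ 0 ∧ y ≠ 0 ∧ a * x = y

/-- The lattice of submodules is distributive. -/
def Distributive (S : Type u) (M : Type v) [Ring S] [AddCommGroup M] [Module S M] : Prop :=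
  ∀ I J K : Submodule S M, I ⊓ (J ⊔ K) = (I ⊓ J) ⊔ (I ⊓ K)

/-- The submodules form a chain. -/
def Uniserial (S : Type u) (M : Type v) [Ring S] [AddCommGroup M] [Module S M] : Prop :=
  ∀ I J : Submodule S M, I ≤ J ∨ J ≤ I

section ring

lemma Uniserial.distrib {S : Type u} {M : Type v} [Ring S] [AddCommGroup M] [Module S M]
    (h : Uniserial S M) : Distributive S M := fun I J K => by
  rcases h J K with h | h
  · rw [sup_eq_right.mpr h, sup_eq_right.mpr (inf_le_inf_left _ h)]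
  · rw [sup_eq_left.mpr h, sup_eq_left.mpr (inf_le_inf_left _ h)]

lemma Distributive.elem {S : Type u} {M : Type v} [Ring S] [AddCommGroup M] [Module S M]
    (h : Distributive S M) (a b : M) : ∃ f r s : S, f • a = r • b ∧ (1 - f) • b = s • a := by
  have h1 : a + b ∈ (S ∙ (a + b)) ⊓ ((S ∙ a) ⊔ (S ∙ b)) :=
    ⟨Submodule.mem_span_singleton_self _, Submodule.add_mem_sup
      (Submodule.mem_span_singleton_self _) (Submodule.mem_span_singleton_self _)⟩
  rw [h] at h1
  obtain ⟨x, ⟨h2, h3⟩, y, ⟨h4, h5⟩, h6⟩ := Submodule.mem_sup.mp h1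
  obtain ⟨g, rfl⟩ := Submodule.mem_span_singleton.mp h4
  obtain ⟨s, rfl⟩ := Submodule.mem_span_singleton.mp h3
  obtain ⟨r, hr⟩ := Submodule.mem_span_singleton.mp h5
  refine ⟨g, r - g, s + g - 1, ?_, ?_⟩
  · rw [sub_smul, hr, smul_add, add_sub_cancel_right]
  · rw [smul_add, ← add_assoc, ← eq_sub_iff_add_eq] at h6
    rw [sub_smul, sub_smul, add_smul, h6, one_smul, one_smul]
    abel

variable {R : Type u} [Ring R]

lemma idem (h : CentrallyEssential R) {e : R} (he : e * e = e) (r : R) : r * e = e * r := by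
  have key : ∀ e f : R, f * e = 0 → e * e = e → e * r * f = 0 := by
    intro e f h1 h2
    by_contra h0
    obtain ⟨x, hx, y, hy, -, h3, h4⟩ := h _ h0
    apply h3
    have : e * y = y := by rw [← h4, ← mul_assoc, ← mul_assoc, ← mul_assoc, h2]
    rw [← this, Subring.mem_center_iff.mp hy, ← h4, mul_assoc, ← Subring.mem_center_iff.mp hx,
      ← mul_assoc, mul_assoc _ f, h1, mul_zero, zero_mul]
  have h1 := key e (1 - e) (by rw [sub_mul, he, one_mul, sub_self]) he
  have h2 := key (1 - e) e (by rw [mul_sub, he, mul_one, sub_self]) (by simp [mul_sub, sub_mul, he])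
  rw [mul_sub, mul_one, sub_eq_zero] at h1
  rw [sub_mul, sub_mul, one_mul, sub_eq_zero] at h2
  rw [h2, ← h1]

lemma nil (h : CentrallyEssential R) {a b : R} (hab : a * b ≠ b * a) :
    ∃ n ∈ Subring.center R, n ≠ 0 ∧ n * n = 0 ∧ ∃ d, n = (a * b - b * a) * d := by
  obtain ⟨d, hd, n, hn, -, h0, h1⟩ := h _ (sub_ne_zero.mpr hab)
  have key : ∀ z ∈ Subring.center R, z * a ∈ Subring.center R → z * n = 0 := by
    intro z hz h2
    rw [← h1, ← mul_assoc, mul_sub, ← mul_assoc, ← mul_assoc, ← Subring.mem_center_iff.mp h2,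
      ← Subring.mem_center_iff.mp hz b, mul_assoc b, sub_self, zero_mul]
  by_cases h2 : n * a = 0
  · exact ⟨n, hn, h0, key n hn (h2 ▸ zero_mem _), d, h1.symm⟩
  · obtain ⟨x, hx, y, hy, -, h3, h4⟩ := h _ h2
    rw [mul_assoc, Subring.mem_center_iff.mp hx, ← mul_assoc] at h4
    refine ⟨n * x, mul_mem hn hx, fun h5 => h3 (by rw [← h4, h5, zero_mul]), ?_, d * x,
      by rw [← h1, mul_assoc]⟩
    rw [← mul_assoc, key _ (mul_mem hn hx) (h4 ▸ hy), zero_mul]

end ring

variable {A : Type u} [AddCommGroup A]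

lemma retract (D : AddSubgroup A) (h : ∀ p : ℕ, p.Prime → ∀ x ∈ D, ∃ y ∈ D, p • y = x) :
    ∃ e : AddMonoid.End A, (∀ x, e x ∈ D) ∧ ∀ x ∈ D, e x = x := by
  have h1 : ∀ n : ℕ, n ≠ 0 → Function.Surjective fun x : D => n • x := by
    intro n
    induction n using induction_on_primes with
    | zero => simp
    | one => exact fun _ x => ⟨x, one_smul _ _⟩
    | prime_mul p n hp ih =>
      intro h0 x
      obtain ⟨y, hy, h2⟩ := h p hp x x.2
      obtain ⟨z, hz⟩ := ih (right_ne_zero_of_mul h0) ⟨y, hy⟩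
      exact ⟨z, Subtype.ext (by rw [← h2, ← show n • z.1 = y from congrArg Subtype.val hz, smul_smul]; rfl)⟩
  let _ : DivisibleBy D ℕ := divisibleByOfSMulRightSurj _ _ (h1 _)
  let _ := AddGroup.divisibleByIntOfDivisibleByNat D
  obtain ⟨e, he⟩ := (Module.Baer.of_divisible D).extension_property_addMonoidHom D.subtype
    Subtype.val_injective (AddMonoidHom.id D)
  exact ⟨D.subtype.comp e, fun x => (e x).2,
    fun x hx => congrArg (fun φ : D →+ D => (φ ⟨x, hx⟩).1) he⟩

section prime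
variable {p : ℕ} [hp : Fact p.Prime]

lemma exg (K : AddSubgroup A) (hK : ∀ x, p • x ∈ K) {v : A} (hv : v ∉ K) :
    ∃ g : A →+ ZMod p, g v = 1 ∧ ∀ x ∈ K, g x = 0 := by
  let _ : Module (ZMod p) (A ⧸ K) := QuotientAddGroup.zmodModule hK
  have h0 : ∀ (V : Type u) [AddCommGroup V] [Module (ZMod p) V] (x : V), x ≠ 0 →
      ∃ f : V →ₗ[ZMod p] ZMod p, f x = 1 := fun V _ _ x hx =>
    Module.Projective.exists_dual_eq_one (ZMod p) hx
  obtain ⟨f, hf⟩ := h0 (A ⧸ K) _ (mt (QuotientAddGroup.eq_zero_iff v).mp hv)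
  exact ⟨f.toAddMonoidHom.comp (QuotientAddGroup.mk' K), hf, fun x hx => by
    simp [(QuotientAddGroup.eq_zero_iff x).mpr hx]⟩

lemma hmul {u : A} (hu : p • u = 0) (z w : ZMod p) : z.val • w.val • u = (z * w).val • u := by
  rw [ZMod.val_mul, ← nsmul_eq_mod_nsmul _ hu, smul_smul]

lemma hadd {u : A} (hu : p • u = 0) (z w : ZMod p) : (z + w).val • u = z.val • u + w.val • u := by
  rw [ZMod.val_add, ← nsmul_eq_mod_nsmul _ hu, add_smul]

/-- the rank one endomorphism `x ↦ g(x) u` -/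
def ph {u : A} (hu : p • u = 0) (g : A →+ ZMod p) : AddMonoid.End A :=
  AddMonoidHom.mk' (fun x => (g x).val • u) fun x y => by rw [map_add, hadd hu]

lemma ph_cen (h : CentrallyEssential (AddMonoid.End A)) {u : A} (hu : p • u = 0)
    (g : A →+ ZMod p) : ph hu g ∈ Subring.center (AddMonoid.End A) := by
  by_cases h0 : ph hu g = 0
  · exact h0 ▸ zero_mem _
  obtain ⟨x, hx, y, hy, -, h1, h2⟩ := h _ h0
  obtain ⟨t, ht⟩ := DFunLike.ne_iff.mp h1
  have e1 : ∀ s, y s = (g (x s)).val • u := fun s => h2 ▸ rfl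
  have e2 : ∀ s, y s = (g s).val • x u := fun s => by
    rw [← h2, Subring.mem_center_iff.mp hx, ← map_nsmul]
    rfl
  have h3 : g (x t) ≠ 0 := fun h => ht (by rw [e1, h]; simp)
  have h4 : g t ≠ 0 := fun h => ht (by rw [e2, h]; simp)
  have h5 : p • x u = 0 := by rw [← map_nsmul, hu, map_zero]
  have h6 : x u = ((g t)⁻¹ * g (x t)).val • u := by
    rw [← hmul hu, ← e1, e2, hmul h5, inv_mul_cancel₀ h4, ZMod.val_one, one_smul]
  have h7 : ph hu g = ((g t)⁻¹ * g (x t))⁻¹.val • y := AddMonoidHom.ext fun s => by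
    change (g s).val • u = ((g t)⁻¹ * g (x t))⁻¹.val • y s
    rw [e2, h6, smul_comm, hmul hu _⁻¹, inv_mul_cancel₀ (mul_ne_zero (inv_ne_zero h4) h3),
      ZMod.val_one, one_smul]
  exact h7 ▸ nsmul_mem hy _

variable (h : CentrallyEssential (AddMonoid.End A))
  (hd : ∀ a ∈ Subring.center (AddMonoid.End A), ∀ b ∈ Subring.center (AddMonoid.End A),
    ∃ f r s, f * a = r * b ∧ (1 - f) * b = s * a)
include h hd

lemma fin_tors {v : A} (hv : v ∉ (nsmulAddMonoidHom p).range) : {u : A | p • u = 0}.Finite := by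
  obtain ⟨g, hg, -⟩ := exg (p := p) _ (fun x => AddMonoidHom.mem_range.mpr ⟨x, by rfl⟩) hv
  by_cases h0 : ∀ u : A, p • u = 0 → u = 0
  · exact (Set.finite_singleton 0).subset h0
  push Not at h0
  obtain ⟨u, hu, h0⟩ := h0
  refine (Set.finite_range fun z : ZMod p => z.val • u).subset fun w hw => ?_
  obtain ⟨f, r, s, h1, h2⟩ := hd _ (ph_cen h hu g) _ (ph_cen h hw g)
  rw [Subring.mem_center_iff.mp (ph_cen h hu g), Subring.mem_center_iff.mp (ph_cen h hw g)] at h1 h2
  have h3 : (g (f v)).val • u = (g (r v)).val • w := DFunLike.congr_fun h1 v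
  have h4 : (g (v - f v)).val • w = (g (s v)).val • u := DFunLike.congr_fun h2 v
  have key : ∀ a b : ZMod p, a ≠ 0 → a.val • w = b.val • u → ∃ z : ZMod p, z.val • u = w :=
    fun a b ha h => ⟨a⁻¹ * b, by
      rw [← hmul hu, ← h, hmul hw, inv_mul_cancel₀ ha, ZMod.val_one, one_smul]⟩
  by_cases h5 : g (v - f v) = 0
  · rw [map_sub, hg, sub_eq_zero] at h5
    refine key _ _ (fun h6 => h0 ?_) h3.symm
    simpa [← h5, h6, ZMod.val_one] using h3
  · exact key _ _ h5 h4

lemma cyc {v u : A} (hv : v ∉ (nsmulAddMonoidHom p).range) (hu : p • u = 0) (h0 : u ≠ 0)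
    (k : ℕ) (x : A) : ∃ (m : ℤ) (z : A), x = m • v + p ^ k • z := by
  have h1 : ∀ x, x ∈ AddSubgroup.zmultiples v ⊔ (nsmulAddMonoidHom p).range := by
    intro w
    by_contra hw
    obtain ⟨g, hg, -⟩ := exg (p := p) _ (fun x => AddMonoidHom.mem_range.mpr ⟨x, by rfl⟩) hv
    obtain ⟨g', hg', h2⟩ := exg (p := p) _
      (fun x => AddSubgroup.mem_sup_right (T := (nsmulAddMonoidHom p).range) ⟨x, rfl⟩) hw
    have h3 := h2 v (AddSubgroup.mem_sup_left (AddSubgroup.mem_zmultiples v))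
    obtain ⟨f, r, s, h4, h5⟩ := hd _ (ph_cen h hu g) _ (ph_cen h hu g')
    have h6 : f ((g v).val • u) = r ((g' v).val • u) := DFunLike.congr_fun h4 v
    have h7 : (1 - f) ((g' (w - (g w).val • v)).val • u) = s ((g (w - (g w).val • v)).val • u) :=
      DFunLike.congr_fun h5 _
    simp [hg, hg', h3, ZMod.val_one] at h6 h7
    change u - f u = 0 at h7
    exact h0 (by rwa [h6, sub_zero] at h7)
  induction k with
  | zero => exact ⟨0, x, by simp⟩
  | succ k ih =>
    obtain ⟨m, z, rfl⟩ := ih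
    obtain ⟨_, ⟨l, rfl⟩, _, ⟨y, rfl⟩, rfl⟩ := AddSubgroup.mem_sup.mp (h1 z)
    refine ⟨m + p ^ k * l, y, ?_⟩
    simp only [nsmulAddMonoidHom_apply, smul_add, add_smul, pow_succ, mul_smul, add_assoc]
    rw [← Nat.cast_pow, natCast_zsmul]

omit h hd hp in
lemma all_div (hv : ∀ v : A, v ∈ (nsmulAddMonoidHom p).range) (k : ℕ) (x : A) :
    ∃ y, p ^ k • y = x := by
  induction k with
  | zero => exact ⟨x, by simp⟩
  | succ k ih =>
    obtain ⟨y, rfl⟩ := ih
    obtain ⟨z, rfl⟩ := hv y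
    exact ⟨z, by rw [pow_succ, mul_smul]; rfl⟩

lemma divA {x : A} (hx : ∀ k, ∃ y, p ^ k • y = x) : ∃ y, p • y = x ∧ ∀ k, ∃ z, p ^ k • z = y := by
  by_cases hv : ∀ v : A, v ∈ (nsmulAddMonoidHom p).range
  · obtain ⟨y, hy⟩ := hv x
    exact ⟨y, hy, fun k => all_div hv k y⟩
  obtain ⟨v, hv⟩ := not_forall.mp hv
  by_contra! h0
  choose! K hK using h0
  obtain ⟨y, hy⟩ := hx 1
  have h1 : {y : A | p • y = x}.Finite := ((fin_tors h hd hv).image (· + y)).subset
    fun z hz => ⟨z - y, by rw [Set.mem_ofPred_eq, smul_sub, hz, ← hy, pow_one, sub_self], by simp⟩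
  obtain ⟨N, hN⟩ := (h1.image K).bddAbove
  obtain ⟨z, hz⟩ := hx (N + 1)
  rw [pow_succ', mul_smul] at hz
  obtain ⟨l, hl⟩ := Nat.exists_eq_add_of_le (hN ⟨_, hz, rfl⟩)
  exact hK _ hz (p ^ l • z) (by rw [smul_smul, ← pow_add, ← hl])

lemma divN {a b d n : AddMonoid.End A} (hn : n ∈ Subring.center (AddMonoid.End A))
    (h2 : n * n = 0) (h3 : n = (a * b - b * a) * d) (x : A) (k : ℕ) : ∃ y, p ^ k • y = n x := by
  by_cases hv : ∀ v : A, v ∈ (nsmulAddMonoidHom p).range
  · exact all_div hv k _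
  obtain ⟨v, hv⟩ := not_forall.mp hv
  by_cases h0 : ∀ u : A, p • u = 0 → u = 0
  · have h4 : ∀ (k : ℕ) (u : A), p ^ k • u = 0 → u = 0 := by
      intro k
      induction k with
      | zero => simp
      | succ k ih => exact fun u hu => h0 _ (ih _ (by rwa [smul_smul, ← pow_succ]))
    obtain ⟨f, r, s, h5, h6⟩ := hd _ hn (p ^ k • 1) (nsmul_mem (one_mem _) _)
    rw [mul_smul_comm, mul_one] at h5 h6
    have h7 : (1 - f) * n = 0 := AddMonoidHom.ext fun y => h4 k _ (by
      have : (p ^ k • (1 - f)) * n = 0 := by rw [h6, mul_assoc, h2, mul_zero]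
      exact DFunLike.congr_fun this y)
    rw [sub_mul, one_mul, h5, sub_eq_zero] at h7
    exact ⟨r x, by rw [h7]; rfl⟩
  · push Not at h0
    obtain ⟨u, hu, h0⟩ := h0
    obtain ⟨m, z, h4⟩ := cyc h hd hv hu h0 k (d x)
    obtain ⟨m1, z1, h5⟩ := cyc h hd hv hu h0 k (a v)
    obtain ⟨m2, z2, h6⟩ := cyc h hd hv hu h0 k (b v)
    refine ⟨m • (m2 • z1 + a z2 - m1 • z2 - b z1) + (a (b z) - b (a z)), ?_⟩
    have : n x = a (b (d x)) - b (a (d x)) := by rw [h3]; rfl
    rw [this, h4]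
    simp only [map_add, map_zsmul, map_nsmul, h5, h6]
    module

end prime

/-- If the endomorphism ring of an abelian group is centrally essential and right (or left)
distributive or uniserial, then it is commutative. -/
theorem result (A : Type u) [AddCommGroup A] (h : CentrallyEssential (AddMonoid.End A))
    (hd : Distributive (AddMonoid.End A)ᵐᵒᵖ (AddMonoid.End A) ∨
      Uniserial (AddMonoid.End A)ᵐᵒᵖ (AddMonoid.End A) ∨
      Distributive (AddMonoid.End A) (AddMonoid.End A) ∨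
      Uniserial (AddMonoid.End A) (AddMonoid.End A)) (a b : AddMonoid.End A) :
    a * b = b * a := by
  have hd' : ∀ a ∈ Subring.center (AddMonoid.End A), ∀ b ∈ Subring.center (AddMonoid.End A),
      ∃ f r s, f * a = r * b ∧ (1 - f) * b = s * a := by
    intro a ha b hb
    rw [← or_assoc] at hd
    rcases hd with hd | hd
    · obtain ⟨f, r, s, h1, h2⟩ := (hd.elim id Uniserial.distrib).elem a b
      refine ⟨f.unop, r.unop, s.unop, ?_, ?_⟩ <;>
        rw [Subring.mem_center_iff.mp ha, Subring.mem_center_iff.mp hb]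
      exacts [h1, h2]
    · exact (hd.elim id Uniserial.distrib).elem a b
  by_contra hab
  obtain ⟨n, hn, h0, h1, d, h2⟩ := nil h hab
  let D : AddSubgroup A := ⨅ (p : Nat.Primes) (k : ℕ), (nsmulAddMonoidHom (p.1 ^ k)).range
  have mD : ∀ x, x ∈ D ↔ ∀ p : ℕ, p.Prime → ∀ k, ∃ y, p ^ k • y = x := fun x => by
    simp only [D, AddSubgroup.mem_iInf]
    exact Subtype.forall
  have hD : ∀ p : ℕ, p.Prime → ∀ x ∈ D, ∃ y ∈ D, p • y = x := by
    intro p hp x hx
    have := Fact.mk hp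
    obtain ⟨y, hy, h3⟩ := divA h hd' ((mD x).mp hx p hp)
    refine ⟨y, (mD y).mpr fun q hq k => ?_, hy⟩
    by_cases h4 : q = p
    · exact h4 ▸ h3 k
    obtain ⟨z, hz⟩ := (mD x).mp hx q hq k
    obtain ⟨s, t, h5⟩ := Nat.isCoprime_iff_coprime.mpr
      (((Nat.coprime_primes hq hp).mpr h4).pow_left k)
    refine ⟨s • y + t • z, ?_⟩
    rw [smul_add, smul_comm _ t, hz, ← hy, ← natCast_zsmul, ← natCast_zsmul y, smul_smul, smul_smul,
      ← add_smul, mul_comm, h5, one_smul]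
  have cen : ∀ (E : AddSubgroup A) (e : AddMonoid.End A), (∀ x, e x ∈ E) → (∀ x ∈ E, e x = x) →
      (∀ x, n x ∈ E) → ∀ x, n x = n (e x) := fun E e h3 h4 h5 x =>
    (h4 _ (h5 x)).symm.trans (DFunLike.congr_fun (Subring.mem_center_iff.mp hn e) x)
  obtain ⟨e, h3, h4⟩ := retract D hD
  have h5 := cen D e h3 h4 fun x => (mD _).mpr fun p hp k =>
    have := Fact.mk hp
    divN h hd' hn h1 h2 x k
  obtain ⟨e', h6, h7⟩ := retract (AddMonoidHom.range n) (by
    rintro p hp _ ⟨x, rfl⟩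
    obtain ⟨y, -, hy⟩ := hD p hp _ (h3 x)
    exact ⟨n y, ⟨y, rfl⟩, by rw [← map_nsmul, hy]; exact (h5 x).symm⟩)
  refine h0 (AddMonoidHom.ext fun x => ?_)
  obtain ⟨y, hy⟩ := h6 x
  exact ((cen _ e' h6 h7 (fun x => ⟨x, rfl⟩) x).trans (congrArg n hy.symm)).trans
    (DFunLike.congr_fun h1 y)

end Pool.Agent.Results.MP_10193a_al.Commutative
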